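import Mathlib

set_option autoImplicit false

namespace Pool.Agent.Work.MP_49f151_co

open Complex

/-- If `X` misses a point, and two points of `X` lying on different sides of the horizontal line
through that point can be joined in `X` both to the left and to the right of it, then `X` is not
simply connected. -/
theorem not_simplyConnected {F : Type*} [TopologicalSpace F] (X : Set F) (A B : F → ℝ)
    (hA : Continuous A) (hB : Continuous B) (h1 h2 : ℝ)
    (hX : ∀ p ∈ X, A p = h1 → B p = h2 → False) (x y : F)
    (hx : h2 < B x) (hy : B y < h2)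
    (j1 : JoinedIn (X ∩ {p | B p = h2 → h1 < A p}) x y)
    (j2 : JoinedIn (X ∩ {p | B p = h2 → A p < h1}) x y) :
    ¬ SimplyConnectedSpace X := by
  intro hS
  obtain ⟨γ1, hγ1⟩ := j1
  obtain ⟨γ2, hγ2⟩ := j2
  have hxX : x ∈ X := by simpa using (hγ1 0).1
  have hyX : y ∈ X := by simpa using (hγ1 1).1
  let q1 : Path (⟨x, hxX⟩ : X) ⟨y, hyX⟩ :=
    { toFun := fun t => ⟨γ1 t, (hγ1 t).1⟩
      continuous_toFun := by fun_prop
      source' := by simp
      target' := by simp }
  let q2 : Path (⟨x, hxX⟩ : X) ⟨y, hyX⟩ :=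
    { toFun := fun t => ⟨γ2 t, (hγ2 t).1⟩
      continuous_toFun := by fun_prop
      source' := by simp
      target' := by simp }
  have hom : Path.Homotopic q1 q2 := SimplyConnectedSpace.paths_homotopic q1 q2
  let g : F → ℂ := fun p => ((A p - h1 : ℝ) : ℂ) + ((B p - h2 : ℝ) : ℂ) * I
  have hg : Continuous g := by fun_prop
  have gre : ∀ p, (g p).re = A p - h1 := by intro p; simp [g]
  have gim : ∀ p, (g p).im = B p - h2 := by intro p; simp [g]
  have gne : ∀ p ∈ X, g p ≠ 0 := by
    intro p hp h0
    have e1 : (g p).re = 0 := by rw [h0]; simp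
    have e2 : (g p).im = 0 := by rw [h0]; simp
    rw [gre] at e1; rw [gim] at e2
    exact hX p hp (by linarith) (by linarith)
  let f : C(X, {z : ℂ // z ≠ 0}) := ⟨fun p => ⟨g p, gne p p.2⟩, by fun_prop⟩
  have hom' := hom.map f
  have cov := Complex.isCoveringMap_exp
  -- explicit lifts
  have s1 : ∀ t, g (γ1 t) ∈ slitPlane := by
    intro t
    rw [mem_slitPlane_iff]
    by_cases hb : B (γ1 t) = h2
    · left; rw [gre]; have := (hγ1 t).2 hb; linarith
    · right; rw [gim]; intro h; exact hb (by linarith)
  have s2 : ∀ t, -g (γ2 t) ∈ slitPlane := by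
    intro t
    rw [mem_slitPlane_iff]
    by_cases hb : B (γ2 t) = h2
    · left; rw [neg_re, gre]; have := (hγ2 t).2 hb; linarith
    · right; rw [neg_im, gim]; intro h; exact hb (by linarith)
  let L1 : C(unitInterval, ℂ) := ⟨fun t => log (g (γ1 t)), by
    refine Continuous.clog (by fun_prop) s1⟩
  let L2 : C(unitInterval, ℂ) := ⟨fun t => log (-g (γ2 t)) + Real.pi * I, by
    refine Continuous.add (Continuous.clog (by fun_prop) s2) continuous_const⟩
  have gx : 0 < (g x).im := by rw [gim]; linarith
  have gy : (g y).im < 0 := by rw [gim]; linarith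
  have e0 : L1 0 = L2 0 := by
    have : L1 0 = log (g x) := by simp [L1]
    rw [this]
    have : L2 0 = log (-g x) + Real.pi * I := by simp [L2]
    rw [this]
    apply Complex.ext
    · simp [log_re]
    · simp only [log_im, add_im, mul_im, ofReal_re, I_im, ofReal_im, I_re, mul_zero, mul_one,
        add_zero]
      rw [arg_neg_eq_arg_sub_pi_of_im_pos gx]; ring
  have e1 : L2 1 = L1 1 + 2 * Real.pi * I := by
    have : L1 1 = log (g y) := by simp [L1]
    rw [this]
    have : L2 1 = log (-g y) + Real.pi * I := by simp [L2]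
    rw [this]
    apply Complex.ext
    · simp [log_re]
    · simp only [log_im, add_im, mul_im, mul_re, ofReal_re, I_im, ofReal_im, I_re, mul_zero, mul_one,
        add_zero, re_ofNat, im_ofNat, sub_zero]
      rw [arg_neg_eq_arg_add_pi_of_im_neg gy]; ring
  have k1 : (q1.map f.continuous).toContinuousMap 0
      = ⟨_, (L1 0).exp_ne_zero⟩ := by
    apply Subtype.ext
    simp [f, L1, Complex.exp_log (gne x hxX)]
  have k2 : (q2.map f.continuous).toContinuousMap 0
      = ⟨_, (L1 0).exp_ne_zero⟩ := by
    apply Subtype.ext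
    simp [f, L1, Complex.exp_log (gne x hxX)]
  have m1 : L1 = cov.liftPath _ (L1 0) k1 := by
    rw [cov.eq_liftPath_iff']
    refine ⟨?_, rfl⟩
    funext t
    apply Subtype.ext
    simp [f, L1, q1, Complex.exp_log (gne _ (hγ1 t).1)]
  have m2 : L2 = cov.liftPath _ (L1 0) k2 := by
    rw [cov.eq_liftPath_iff']
    refine ⟨?_, e0.symm⟩
    funext t
    apply Subtype.ext
    simp only [ContinuousMap.coe_mk, Function.comp_apply, L2, Complex.exp_add, Complex.exp_pi_mul_I]
    rw [Complex.exp_log (neg_ne_zero.mpr (gne _ (hγ2 t).1))]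
    simp [f, q2]
  have key := cov.liftPath_apply_one_eq_of_homotopicRel hom' (L1 0) k1 k2
  rw [← m1, ← m2, e1] at key
  have : (2 * Real.pi * I : ℂ) = 0 := by
    have := key
    linear_combination -this
  simp at this

end Pool.Agent.Work.MP_49f151_co
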