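import Mathlib
import Pool.Agent.Work.MP_49f151_co.Top

set_option autoImplicit false

namespace Pool.Agent.Work.MP_49f151_co

/-- The Euclidean plane. -/
abbrev E := EuclideanSpace ℝ (Fin 2)

/-- `√3`. -/
noncomputable def s3 : ℝ := Real.sqrt 3

lemma s3_sq : s3 * s3 = 3 := by
  unfold s3; exact Real.mul_self_sqrt (by norm_num)

/-- First coordinate with respect to the basis `(1, 0)`, `(1/2, √3/2)`. -/
noncomputable def cI (p : E) : ℝ := p 0 - s3 / 3 * p 1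

/-- Second coordinate with respect to the basis `(1, 0)`, `(1/2, √3/2)`. -/
noncomputable def cJ (p : E) : ℝ := 2 * s3 / 3 * p 1

/-- The point with given coordinates. -/
noncomputable def mkP (i j : ℝ) : E := !₂[i + j / 2, s3 / 2 * j]

@[simp] lemma cI_mkP (i j : ℝ) : cI (mkP i j) = i := by
  simp only [cI, mkP, PiLp.toLp_apply, Matrix.cons_val_zero, Matrix.cons_val_one]
  linear_combination (-j / 6) * s3_sq

@[simp] lemma cJ_mkP (i j : ℝ) : cJ (mkP i j) = j := by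
  simp only [cJ, mkP, PiLp.toLp_apply, Matrix.cons_val_one, Matrix.cons_val_zero,
    Matrix.cons_val_fin_one]
  linear_combination (j / 3) * s3_sq

lemma cont_cI : Continuous cI := by unfold cI; fun_prop
lemma cont_cJ : Continuous cJ := by unfold cJ; fun_prop

lemma ext_IJ {p q : E} (h1 : cI p = cI q) (h2 : cJ p = cJ q) : p = q := by
  have hs : s3 ≠ 0 := by
    intro h; have := s3_sq; rw [h] at this; norm_num at this
  have e1 : p 1 = q 1 := by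
    unfold cJ at h2
    have : (2 * s3 / 3) ≠ 0 := by positivity
    exact mul_left_cancel₀ this h2
  have e0 : p 0 = q 0 := by
    unfold cI at h1; rw [e1] at h1; linarith
  ext i; fin_cases i
  · exact e0
  · exact e1

/-- Tiles of the first kind: translates of the basic chevron. -/
def tA (a b : ℤ) : Set E := {p | ((a + b : ℤ) : ℝ) ≤ cI p + cJ p ∧ cI p + cJ p ≤ ((a + b + 7 : ℤ) : ℝ) ∧
  (b : ℝ) ≤ cJ p ∧ cI p ≤ ((a + 4 : ℤ) : ℝ) ∧ (cJ p ≤ ((b + 1 : ℤ) : ℝ) ∨ ((a + 3 : ℤ) : ℝ) ≤ cI p)}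

/-- Tiles of the second kind: reflected chevrons. -/
def tB (a b : ℤ) : Set E := {p | ((a - 1 : ℤ) : ℝ) ≤ cI p ∧ cI p ≤ ((a + 6 : ℤ) : ℝ) ∧
  (b : ℝ) ≤ cJ p ∧ ((a + b + 2 : ℤ) : ℝ) ≤ cI p + cJ p ∧
  (cJ p ≤ ((b + 1 : ℤ) : ℝ) ∨ cI p + cJ p ≤ ((a + b + 3 : ℤ) : ℝ))}

/-- Tiles of the third kind: rotated chevrons. -/
def tC (a b : ℤ) : Set E := {p | (b : ℝ) ≤ cJ p ∧ cJ p ≤ ((b + 7 : ℤ) : ℝ) ∧
  cI p ≤ ((a + 7 : ℤ) : ℝ) ∧ cI p + cJ p ≤ ((a + b + 11 : ℤ) : ℝ) ∧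
  (((a + 6 : ℤ) : ℝ) ≤ cI p ∨ ((a + b + 10 : ℤ) : ℝ) ≤ cI p + cJ p)}

/-- The tiling. -/
def tiling : Set (Set E) := {S | (∃ k m n : ℤ, 0 ≤ k ∧ k ≤ 5 ∧ S = tA (8 * m + n + k - 3) (7 * n + 6 - k)) ∨
  (∃ m n : ℤ, S = tB (8 * m + n) (7 * n)) ∨ (∃ m n : ℤ, S = tC (8 * m + n) (7 * n))}

/-! ### Combinatorics of cells -/

/-- Cell membership for `tA`. -/
def iA (a b x y z : ℤ) : Prop := a + b ≤ z ∧ z < a + b + 7 ∧ b ≤ y ∧ x < a + 4 ∧ (y < b + 1 ∨ a + 3 ≤ x)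
/-- Cell membership for `tB`. -/
def iB (a b x y z : ℤ) : Prop := a - 1 ≤ x ∧ x < a + 6 ∧ b ≤ y ∧ a + b + 2 ≤ z ∧ (y < b + 1 ∨ z < a + b + 3)
/-- Cell membership for `tC`. -/
def iC (a b x y z : ℤ) : Prop := b ≤ y ∧ y < b + 7 ∧ x < a + 7 ∧ z < a + b + 11 ∧ (a + 6 ≤ x ∨ a + b + 10 ≤ z)

lemma cover_int (x y z : ℤ) (hz : z = x + y ∨ z = x + y + 1) :
    (∃ k m n : ℤ, 0 ≤ k ∧ k ≤ 5 ∧ iA (8 * m + n + k - 3) (7 * n + 6 - k) x y z) ∨
    (∃ m n : ℤ, iB (8 * m + n) (7 * n) x y z) ∨ (∃ m n : ℤ, iC (8 * m + n) (7 * n) x y z) := by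
  obtain ⟨w, r, hw, hr0, hr⟩ : ∃ w r : ℤ, z = 8 * w + 3 + r ∧ 0 ≤ r ∧ r < 8 :=
    ⟨(z - 3) / 8, (z - 3) % 8, by omega, by omega, by omega⟩
  by_cases hr7 : r = 7
  · obtain ⟨n, y', hn, h0, h1⟩ : ∃ n y' : ℤ, y = 7 * n + y' ∧ 0 ≤ y' ∧ y' < 7 :=
      ⟨y / 7, y % 7, by omega, by omega, by omega⟩
    by_cases hc : 8 * (w + 1 - n) + n - 1 ≤ x
    · right; left
      refine ⟨w + 1 - n, n, ?_⟩
      unfold iB; omega
    · right; right
      refine ⟨w - n, n, ?_⟩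
      unfold iC; omega
  · by_cases hc : y - 6 ≤ 8 * w - x
    · obtain ⟨n, q, hn, h0, h1⟩ : ∃ n q : ℤ, y - 6 + 5 = 7 * n + q ∧ 0 ≤ q ∧ q < 7 :=
        ⟨(y - 6 + 5) / 7, (y - 6 + 5) % 7, by omega, by omega, by omega⟩
      by_cases hq : q = 6
      · by_cases hx : x = 8 * w - 7 * n - 1
        · right; right
          refine ⟨w - n - 1, n + 1, ?_⟩
          unfold iC; omega
        · right; left
          refine ⟨w - n - 1, n + 1, ?_⟩
          unfold iB; omega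
      · left
        refine ⟨5 - q, w - n, n, by omega, by omega, ?_⟩
        unfold iA; omega
    · obtain ⟨n, q, hn, h0, h1⟩ : ∃ n q : ℤ, 8 * w - x + 5 = 7 * n + q ∧ 0 ≤ q ∧ q < 7 :=
        ⟨(8 * w - x + 5) / 7, (8 * w - x + 5) % 7, by omega, by omega, by omega⟩
      by_cases hq : q = 6
      · right; right
        refine ⟨w - n - 1, n + 1, ?_⟩
        unfold iC; omega
      · left
        refine ⟨5 - q, w - n, n, by omega, by omega, ?_⟩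
        unfold iA; omega

lemma uniq_AA (x y z k m n k' m' n' : ℤ) (hz : z = x + y ∨ z = x + y + 1)
    (hk : 0 ≤ k ∧ k ≤ 5) (hk' : 0 ≤ k' ∧ k' ≤ 5)
    (h : iA (8 * m + n + k - 3) (7 * n + 6 - k) x y z)
    (h' : iA (8 * m' + n' + k' - 3) (7 * n' + 6 - k') x y z) : k = k' ∧ m = m' ∧ n = n' := by
  unfold iA at h h'
  have hw : m + n = m' + n' := by omega
  omega

lemma uniq_BB (x y z m n m' n' : ℤ) (hz : z = x + y ∨ z = x + y + 1)
    (h : iB (8 * m + n) (7 * n) x y z)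
    (h' : iB (8 * m' + n') (7 * n') x y z) : m = m' ∧ n = n' := by
  unfold iB at h h'; omega

lemma uniq_CC (x y z m n m' n' : ℤ) (hz : z = x + y ∨ z = x + y + 1)
    (h : iC (8 * m + n) (7 * n) x y z)
    (h' : iC (8 * m' + n') (7 * n') x y z) : m = m' ∧ n = n' := by
  unfold iC at h h'; omega

lemma uniq_AB (x y z k m n m' n' : ℤ) (hz : z = x + y ∨ z = x + y + 1)
    (hk : 0 ≤ k ∧ k ≤ 5)
    (h : iA (8 * m + n + k - 3) (7 * n + 6 - k) x y z)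
    (h' : iB (8 * m' + n') (7 * n') x y z) : False := by
  unfold iA at h; unfold iB at h'; omega

lemma uniq_AC (x y z k m n m' n' : ℤ) (hz : z = x + y ∨ z = x + y + 1)
    (hk : 0 ≤ k ∧ k ≤ 5)
    (h : iA (8 * m + n + k - 3) (7 * n + 6 - k) x y z)
    (h' : iC (8 * m' + n') (7 * n') x y z) : False := by
  unfold iA at h; unfold iC at h'; omega

lemma uniq_BC (x y z m n m' n' : ℤ) (hz : z = x + y ∨ z = x + y + 1)
    (h : iB (8 * m + n) (7 * n) x y z)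
    (h' : iC (8 * m' + n') (7 * n') x y z) : False := by
  unfold iB at h; unfold iC at h'; omega

/-! ### Geometry -/

/-- `p` lies in the closed cell `(x, y, z)`. -/
def ccell (p : E) (x y z : ℤ) : Prop := (x : ℝ) ≤ cI p ∧ cI p ≤ x + 1 ∧ (y : ℝ) ≤ cJ p ∧ cJ p ≤ y + 1 ∧
  (z : ℝ) ≤ cI p + cJ p ∧ cI p + cJ p ≤ z + 1

/-- `p` lies in the open cell `(x, y, z)`. -/
def ocell (p : E) (x y z : ℤ) : Prop := (x : ℝ) < cI p ∧ cI p < x + 1 ∧ (y : ℝ) < cJ p ∧ cJ p < y + 1 ∧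
  (z : ℝ) < cI p + cJ p ∧ cI p + cJ p < z + 1

lemma mem_tA_of_iA {p : E} {a b x y z : ℤ} (hc : ccell p x y z) (h : iA a b x y z) : p ∈ tA a b := by
  obtain ⟨c1, c2, c3, c4, c5, c6⟩ := hc
  obtain ⟨h1, h2, h3, h4, h5⟩ := h
  have h1' : ((a + b : ℤ) : ℝ) ≤ z := by exact_mod_cast h1
  have h2' : ((z : ℝ) + 1) ≤ ((a + b + 7 : ℤ) : ℝ) := by exact_mod_cast h2
  have h3' : (b : ℝ) ≤ y := by exact_mod_cast h3
  have h4' : (x : ℝ) + 1 ≤ ((a + 4 : ℤ) : ℝ) := by exact_mod_cast h4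
  refine ⟨by linarith, by linarith, by linarith, by linarith, ?_⟩
  rcases h5 with h5 | h5
  · left
    have h5' : (y : ℝ) + 1 ≤ ((b + 1 : ℤ) : ℝ) := by exact_mod_cast h5
    linarith
  · right
    have h5' : ((a + 3 : ℤ) : ℝ) ≤ x := by exact_mod_cast h5
    linarith

lemma mem_tB_of_iB {p : E} {a b x y z : ℤ} (hc : ccell p x y z) (h : iB a b x y z) : p ∈ tB a b := by
  obtain ⟨c1, c2, c3, c4, c5, c6⟩ := hc
  obtain ⟨h1, h2, h3, h4, h5⟩ := h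
  have h1' : ((a - 1 : ℤ) : ℝ) ≤ x := by exact_mod_cast h1
  have h2' : ((x : ℝ) + 1) ≤ ((a + 6 : ℤ) : ℝ) := by exact_mod_cast h2
  have h3' : (b : ℝ) ≤ y := by exact_mod_cast h3
  have h4' : ((a + b + 2 : ℤ) : ℝ) ≤ z := by exact_mod_cast h4
  refine ⟨by linarith, by linarith, by linarith, by linarith, ?_⟩
  rcases h5 with h5 | h5
  · left
    have h5' : (y : ℝ) + 1 ≤ ((b + 1 : ℤ) : ℝ) := by exact_mod_cast h5
    linarith
  · right
    have h5' : (z : ℝ) + 1 ≤ ((a + b + 3 : ℤ) : ℝ) := by exact_mod_cast h5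
    linarith

lemma mem_tC_of_iC {p : E} {a b x y z : ℤ} (hc : ccell p x y z) (h : iC a b x y z) : p ∈ tC a b := by
  obtain ⟨c1, c2, c3, c4, c5, c6⟩ := hc
  obtain ⟨h1, h2, h3, h4, h5⟩ := h
  have h1' : (b : ℝ) ≤ y := by exact_mod_cast h1
  have h2' : ((y : ℝ) + 1) ≤ ((b + 7 : ℤ) : ℝ) := by exact_mod_cast h2
  have h3' : (x : ℝ) + 1 ≤ ((a + 7 : ℤ) : ℝ) := by exact_mod_cast h3
  have h4' : (z : ℝ) + 1 ≤ ((a + b + 11 : ℤ) : ℝ) := by exact_mod_cast h4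
  refine ⟨by linarith, by linarith, by linarith, by linarith, ?_⟩
  rcases h5 with h5 | h5
  · left
    have h5' : ((a + 6 : ℤ) : ℝ) ≤ x := by exact_mod_cast h5
    linarith
  · right
    have h5' : ((a + b + 10 : ℤ) : ℝ) ≤ z := by exact_mod_cast h5
    linarith

/-- If `b ≤ r < a + 1` with `a, b` integers then `b ≤ a`. -/
lemma le_of_real {a b : ℤ} {r : ℝ} (h : (b : ℝ) ≤ r) (h' : r < (a : ℝ) + 1) : b ≤ a := by
  have : (b : ℝ) < ((a + 1 : ℤ) : ℝ) := by push_cast; linarith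
  have := Int.cast_lt.mp this
  omega

/-- If `a < r ≤ b` with `a, b` integers then `a < b`. -/
lemma lt_of_real {a b : ℤ} {r : ℝ} (h : r ≤ (b : ℝ)) (h' : (a : ℝ) < r) : a < b := by
  have : (a : ℝ) < (b : ℝ) := by linarith
  exact Int.cast_lt.mp this

lemma iA_of_mem {p : E} {a b x y z : ℤ} (hc : ocell p x y z) (h : p ∈ tA a b) : iA a b x y z := by
  obtain ⟨c1, c2, c3, c4, c5, c6⟩ := hc
  obtain ⟨h1, h2, h3, h4, h5⟩ := h
  refine ⟨le_of_real h1 c6, lt_of_real h2 c5, le_of_real h3 c4, lt_of_real h4 c1, ?_⟩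
  rcases h5 with h5 | h5
  · left; exact lt_of_real h5 c3
  · right; exact le_of_real h5 c2

lemma iB_of_mem {p : E} {a b x y z : ℤ} (hc : ocell p x y z) (h : p ∈ tB a b) : iB a b x y z := by
  obtain ⟨c1, c2, c3, c4, c5, c6⟩ := hc
  obtain ⟨h1, h2, h3, h4, h5⟩ := h
  refine ⟨le_of_real h1 c2, lt_of_real h2 c1, le_of_real h3 c4, le_of_real h4 c6, ?_⟩
  rcases h5 with h5 | h5
  · left; exact lt_of_real h5 c3
  · right; exact lt_of_real h5 c5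

lemma iC_of_mem {p : E} {a b x y z : ℤ} (hc : ocell p x y z) (h : p ∈ tC a b) : iC a b x y z := by
  obtain ⟨c1, c2, c3, c4, c5, c6⟩ := hc
  obtain ⟨h1, h2, h3, h4, h5⟩ := h
  refine ⟨le_of_real h1 c4, lt_of_real h2 c3, lt_of_real h3 c1, lt_of_real h4 c5, ?_⟩
  rcases h5 with h5 | h5
  · left; exact le_of_real h5 c2
  · right; exact le_of_real h5 c6

lemma ocell_z {p : E} {x y z : ℤ} (hc : ocell p x y z) : z = x + y ∨ z = x + y + 1 := by
  obtain ⟨c1, c2, c3, c4, c5, c6⟩ := hc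
  have h1 : (z : ℝ) < ((x + y + 2 : ℤ) : ℝ) := by push_cast; linarith
  have h2 : ((x + y : ℤ) : ℝ) < ((z + 1 : ℤ) : ℝ) := by push_cast; linarith
  have h1 := Int.cast_lt.mp h1
  have h2 := Int.cast_lt.mp h2
  omega

lemma exists_ccell (p : E) : ∃ x y z : ℤ, (z = x + y ∨ z = x + y + 1) ∧ ccell p x y z := by
  have a1 := Int.floor_le (cI p)
  have a2 := (Int.lt_floor_add_one (cI p)).le
  have b1 := Int.floor_le (cJ p)
  have b2 := (Int.lt_floor_add_one (cJ p)).le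
  by_cases h : cI p + cJ p ≤ ⌊cI p⌋ + ⌊cJ p⌋ + 1
  · refine ⟨⌊cI p⌋, ⌊cJ p⌋, ⌊cI p⌋ + ⌊cJ p⌋, Or.inl rfl, a1, a2, b1, b2, ?_, ?_⟩ <;> push_cast <;>
      linarith
  · push Not at h
    refine ⟨⌊cI p⌋, ⌊cJ p⌋, ⌊cI p⌋ + ⌊cJ p⌋ + 1, Or.inr rfl, a1, a2, b1, b2, ?_, ?_⟩ <;> push_cast <;>
      linarith

lemma tiling_cover : ⋃₀ tiling = Set.univ := by
  rw [Set.eq_univ_iff_forall]
  intro p
  obtain ⟨x, y, z, hz, hc⟩ := exists_ccell p
  rcases cover_int x y z hz with ⟨k, m, n, h0, h5, h⟩ | ⟨m, n, h⟩ | ⟨m, n, h⟩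
  · exact ⟨_, Or.inl ⟨k, m, n, h0, h5, rfl⟩, mem_tA_of_iA hc h⟩
  · exact ⟨_, Or.inr (Or.inl ⟨m, n, rfl⟩), mem_tB_of_iB hc h⟩
  · exact ⟨_, Or.inr (Or.inr ⟨m, n, rfl⟩), mem_tC_of_iC hc h⟩

/-- Two tiles of the tiling containing a common point of an open cell are equal. -/
lemma tiling_uniq {S S' : Set E} (hS : S ∈ tiling) (hS' : S' ∈ tiling) {p : E} {x y z : ℤ}
    (hc : ocell p x y z) (h : p ∈ S) (h' : p ∈ S') : S = S' := by
  have hz := ocell_z hc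
  rcases hS with ⟨k, m, n, h0, h5, rfl⟩ | ⟨m, n, rfl⟩ | ⟨m, n, rfl⟩ <;>
  rcases hS' with ⟨k', m', n', h0', h5', rfl⟩ | ⟨m', n', rfl⟩ | ⟨m', n', rfl⟩
  · obtain ⟨rfl, rfl, rfl⟩ := uniq_AA x y z k m n k' m' n' hz ⟨h0, h5⟩ ⟨h0', h5'⟩
      (iA_of_mem hc h) (iA_of_mem hc h')
    rfl
  · exact (uniq_AB x y z k m n m' n' hz ⟨h0, h5⟩ (iA_of_mem hc h) (iB_of_mem hc h')).elim
  · exact (uniq_AC x y z k m n m' n' hz ⟨h0, h5⟩ (iA_of_mem hc h) (iC_of_mem hc h')).elim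
  · exact (uniq_AB x y z k' m' n' m n hz ⟨h0', h5'⟩ (iA_of_mem hc h') (iB_of_mem hc h)).elim
  · obtain ⟨rfl, rfl⟩ := uniq_BB x y z m n m' n' hz (iB_of_mem hc h) (iB_of_mem hc h')
    rfl
  · exact (uniq_BC x y z m n m' n' hz (iB_of_mem hc h) (iC_of_mem hc h')).elim
  · exact (uniq_AC x y z k' m' n' m n hz ⟨h0', h5'⟩ (iA_of_mem hc h') (iC_of_mem hc h)).elim
  · exact (uniq_BC x y z m' n' m n hz (iB_of_mem hc h') (iC_of_mem hc h)).elim
  · obtain ⟨rfl, rfl⟩ := uniq_CC x y z m n m' n' hz (iC_of_mem hc h) (iC_of_mem hc h')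
    rfl

/-- Every nonempty open set contains a point of an open cell. -/
lemma exists_ocell {U : Set E} (hU : IsOpen U) {p : E} (hp : p ∈ U) :
    ∃ q ∈ U, ∃ x y z : ℤ, ocell q x y z := by
  -- move in the direction `(1, 1)` in lattice coordinates
  let φ : ℝ → E := fun t => p + t • mkP 1 1
  have hφ : Continuous φ := by fun_prop
  have h0 : φ 0 = p := by simp [φ]
  have hI : ∀ t, cI (φ t) = cI p + t := by
    intro t
    have : cI (φ t) = cI p + t * cI (mkP 1 1) := by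
      simp only [φ, cI, PiLp.add_apply, PiLp.smul_apply, smul_eq_mul]; ring
    rw [this, cI_mkP]; ring
  have hJ : ∀ t, cJ (φ t) = cJ p + t := by
    intro t
    have : cJ (φ t) = cJ p + t * cJ (mkP 1 1) := by
      simp only [φ, cJ, PiLp.add_apply, PiLp.smul_apply, smul_eq_mul]; ring
    rw [this, cJ_mkP]; ring
  have hopen : IsOpen (φ ⁻¹' U) := hU.preimage hφ
  have hmem : (0 : ℝ) ∈ φ ⁻¹' U := by simpa [h0] using hp
  obtain ⟨ε, hε, hball⟩ := Metric.isOpen_iff.mp hopen 0 hmem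
  have a1 := Int.floor_le (cI p)
  have a2 := Int.lt_floor_add_one (cI p)
  have b1 := Int.floor_le (cJ p)
  have b2 := Int.lt_floor_add_one (cJ p)
  have c1 := Int.floor_le (cI p + cJ p)
  have c2 := Int.lt_floor_add_one (cI p + cJ p)
  set x := ⌊cI p⌋
  set y := ⌊cJ p⌋
  set z := ⌊cI p + cJ p⌋
  obtain ⟨t, ht0, ht1⟩ : ∃ t : ℝ, 0 < t ∧ t < min (min ε (x + 1 - cI p))
      (min (y + 1 - cJ p) ((z + 1 - (cI p + cJ p)) / 2)) := by
    apply exists_between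
    simp only [lt_min_iff]
    refine ⟨⟨hε, by linarith⟩, by linarith, by linarith⟩
  simp only [lt_min_iff] at ht1
  obtain ⟨⟨t1, t2⟩, t3, t4⟩ := ht1
  refine ⟨φ t, ?_, x, y, z, ?_⟩
  · apply hball
    simp [abs_of_pos ht0, t1]
  · unfold ocell
    rw [hI, hJ]
    refine ⟨by linarith, by linarith, by linarith, by linarith, by linarith, by linarith⟩

lemma tiling_disj : tiling.Pairwise (fun A B => Disjoint (interior A) (interior B)) := by
  intro S hS S' hS' hne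
  rw [Set.disjoint_left]
  intro p hp hp'
  obtain ⟨q, ⟨hq, hq'⟩, x, y, z, hc⟩ :=
    exists_ocell (isOpen_interior.inter isOpen_interior) (⟨hp, hp'⟩ : p ∈ interior S ∩ interior S')
  exact hne (tiling_uniq hS hS' hc (interior_subset hq) (interior_subset hq'))

end Pool.Agent.Work.MP_49f151_co
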