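import Mathlib
import Pool.Agent.Work.MP_49f151_co.Top
import Pool.Agent.Work.MP_49f151_co.Tiles

set_option autoImplicit false

namespace Pool.Agent.Work.MP_49f151_co

/-- An isometry of the plane given by an orthogonal matrix and a translation. -/
noncomputable def mkIso (a b c d : ℝ) (h1 : a * a + c * c = 1) (h2 : b * b + d * d = 1)
    (h3 : a * b + c * d = 0) (h4 : a * a + b * b = 1) (h5 : c * c + d * d = 1)
    (h6 : a * c + b * d = 0) (t : E) : E ≃ᵢ E :=
  IsometryEquiv.mk' (fun p => !₂[a * p 0 + b * p 1 + t 0, c * p 0 + d * p 1 + t 1])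
    (fun q => !₂[a * (q 0 - t 0) + c * (q 1 - t 1), b * (q 0 - t 0) + d * (q 1 - t 1)])
    (by
      intro q
      ext i; fin_cases i
      · simp
        linear_combination (q 0 - t 0) * h4 + (q 1 - t 1) * h6
      · simp
        linear_combination (q 0 - t 0) * h6 + (q 1 - t 1) * h5)
    (by
      apply Isometry.of_dist_eq
      intro p q
      rw [EuclideanSpace.dist_eq, EuclideanSpace.dist_eq]
      congr 1
      simp only [Fin.sum_univ_two, Real.dist_eq, sq_abs]
      simp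
      linear_combination (p 0 - q 0) ^ 2 * h1 + (p 1 - q 1) ^ 2 * h2
        + 2 * (p 0 - q 0) * (p 1 - q 1) * h3)

lemma mkIso_symm_apply (a b c d : ℝ) (h1 h2 h3 h4 h5 h6) (t q : E) :
    (mkIso a b c d h1 h2 h3 h4 h5 h6 t).symm q =
      !₂[a * (q 0 - t 0) + c * (q 1 - t 1), b * (q 0 - t 0) + d * (q 1 - t 1)] := rfl

/-- The basic chevron. -/
def C0 : Set E := tA 0 0

lemma tA_congr (a b : ℤ) : ∃ f : E ≃ᵢ E, tA a b = f '' C0 := by
  refine ⟨mkIso 1 0 0 1 (by norm_num) (by norm_num) (by norm_num) (by norm_num) (by norm_num)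
    (by norm_num) (mkP a b), ?_⟩
  ext q
  rw [← IsometryEquiv.coe_toEquiv, Equiv.image_eq_preimage_symm, Set.mem_preimage]
  change _ ↔ (mkIso 1 0 0 1 _ _ _ _ _ _ (mkP a b)).symm q ∈ C0
  rw [mkIso_symm_apply]
  have e1 : cI (!₂[1 * (q 0 - (mkP a b) 0) + 0 * (q 1 - (mkP a b) 1),
      0 * (q 0 - (mkP a b) 0) + 1 * (q 1 - (mkP a b) 1)] : E) = cI q - a := by
    have := cI_mkP a b
    simp only [cI] at this ⊢
    simp
    linarith
  have e2 : cJ (!₂[1 * (q 0 - (mkP a b) 0) + 0 * (q 1 - (mkP a b) 1),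
      0 * (q 0 - (mkP a b) 0) + 1 * (q 1 - (mkP a b) 1)] : E) = cJ q - b := by
    have := cJ_mkP a b
    simp only [cJ] at this ⊢
    simp
    linarith
  unfold C0 tA
  rw [Set.mem_ofPred_eq, Set.mem_ofPred_eq, e1, e2]
  push_cast
  constructor
  · rintro ⟨h1, h2, h3, h4, h5⟩
    refine ⟨by linarith, by linarith, by linarith, by linarith, ?_⟩
    rcases h5 with h5 | h5
    · left; linarith
    · right; linarith
  · rintro ⟨h1, h2, h3, h4, h5⟩
    refine ⟨by linarith, by linarith, by linarith, by linarith, ?_⟩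
    rcases h5 with h5 | h5
    · left; linarith
    · right; linarith

lemma tB_congr (a b : ℤ) : ∃ f : E ≃ᵢ E, tB a b = f '' C0 := by
  refine ⟨mkIso (-1) 0 0 1 (by norm_num) (by norm_num) (by norm_num) (by norm_num) (by norm_num)
    (by norm_num) (mkP (a + 6) b), ?_⟩
  ext q
  rw [← IsometryEquiv.coe_toEquiv, Equiv.image_eq_preimage_symm, Set.mem_preimage]
  change _ ↔ (mkIso (-1) 0 0 1 _ _ _ _ _ _ (mkP (a + 6) b)).symm q ∈ C0
  rw [mkIso_symm_apply]
  have t1 := cI_mkP (a + 6) b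
  have t2 := cJ_mkP (a + 6) b
  have e1 : cI (!₂[-1 * (q 0 - (mkP (a + 6) b) 0) + 0 * (q 1 - (mkP (a + 6) b) 1),
      0 * (q 0 - (mkP (a + 6) b) 0) + 1 * (q 1 - (mkP (a + 6) b) 1)] : E)
        = a + 6 + b - cI q - cJ q := by
    simp only [cI, cJ] at t1 t2 ⊢
    simp
    linarith
  have e2 : cJ (!₂[-1 * (q 0 - (mkP (a + 6) b) 0) + 0 * (q 1 - (mkP (a + 6) b) 1),
      0 * (q 0 - (mkP (a + 6) b) 0) + 1 * (q 1 - (mkP (a + 6) b) 1)] : E) = cJ q - b := by
    simp only [cJ] at t2 ⊢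
    simp
    linarith
  unfold C0 tA tB
  rw [Set.mem_ofPred_eq, Set.mem_ofPred_eq, e1, e2]
  push_cast
  constructor
  · rintro ⟨h1, h2, h3, h4, h5⟩
    refine ⟨by linarith, by linarith, by linarith, by linarith, ?_⟩
    rcases h5 with h5 | h5
    · left; linarith
    · right; linarith
  · rintro ⟨h1, h2, h3, h4, h5⟩
    refine ⟨by linarith, by linarith, by linarith, by linarith, ?_⟩
    rcases h5 with h5 | h5
    · left; linarith
    · right; linarith

lemma tC_congr (a b : ℤ) : ∃ f : E ≃ᵢ E, tC a b = f '' C0 := by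
  have hs := s3_sq
  refine ⟨mkIso (1 / 2) (-(s3 / 2)) (s3 / 2) (1 / 2) (by linarith) (by linarith) (by ring)
    (by linarith) (by linarith) (by ring) (mkP (a + 7) b), ?_⟩
  ext q
  rw [← IsometryEquiv.coe_toEquiv, Equiv.image_eq_preimage_symm, Set.mem_preimage]
  change _ ↔ (mkIso (1 / 2) (-(s3 / 2)) (s3 / 2) (1 / 2) _ _ _ _ _ _ (mkP (a + 7) b)).symm q ∈ C0
  rw [mkIso_symm_apply]
  have t1 := cI_mkP (a + 7) b
  have t2 := cJ_mkP (a + 7) b
  have e1 : cI (!₂[1 / 2 * (q 0 - (mkP (a + 7) b) 0) + s3 / 2 * (q 1 - (mkP (a + 7) b) 1),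
      -(s3 / 2) * (q 0 - (mkP (a + 7) b) 0) + 1 / 2 * (q 1 - (mkP (a + 7) b) 1)] : E)
        = cI q + cJ q - (a + 7 + b) := by
    simp only [cI, cJ] at t1 t2 ⊢
    simp
    linear_combination (1 / 6 * (q 0 - (mkP (a + 7) b) 0)) * hs - t1 - t2
  have e2 : cJ (!₂[1 / 2 * (q 0 - (mkP (a + 7) b) 0) + s3 / 2 * (q 1 - (mkP (a + 7) b) 1),
      -(s3 / 2) * (q 0 - (mkP (a + 7) b) 0) + 1 / 2 * (q 1 - (mkP (a + 7) b) 1)] : E)
        = a + 7 - cI q := by
    simp only [cI, cJ] at t1 t2 ⊢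
    simp
    linear_combination (-1 / 3 * (q 0 - (mkP (a + 7) b) 0)) * hs + t1
  unfold C0 tA tC
  rw [Set.mem_ofPred_eq, Set.mem_ofPred_eq, e1, e2]
  push_cast
  constructor
  · rintro ⟨h1, h2, h3, h4, h5⟩
    refine ⟨by linarith, by linarith, by linarith, by linarith, ?_⟩
    rcases h5 with h5 | h5
    · left; linarith
    · right; linarith
  · rintro ⟨h1, h2, h3, h4, h5⟩
    refine ⟨by linarith, by linarith, by linarith, by linarith, ?_⟩
    rcases h5 with h5 | h5
    · left; linarith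
    · right; linarith

lemma tiling_congr : ∀ T ∈ tiling, ∃ f : E ≃ᵢ E, T = f '' C0 := by
  rintro T (⟨k, m, n, -, -, rfl⟩ | ⟨m, n, rfl⟩ | ⟨m, n, rfl⟩)
  · exact tA_congr _ _
  · exact tB_congr _ _
  · exact tC_congr _ _

/-! ### The chevron is a topological disc -/

/-- Homeomorphism of the plane straightening the chevron into a rectangle. -/
noncomputable def straighten : E ≃ₜ E where
  toFun p := !₂[cI p + cJ p - 4, min (cJ p) (4 - cI p)]
  invFun q := mkP (4 - q 1 + min (q 0) 0) (q 1 + max (q 0) 0)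
  left_inv p := by
    apply ext_IJ
    · rw [cI_mkP]
      simp
      rcases le_total (cJ p) (4 - cI p) with h | h
      · rw [min_eq_left h, min_eq_left (by linarith)]; ring
      · rw [min_eq_right h, min_eq_right (by linarith)]; ring
    · rw [cJ_mkP]
      simp
      rcases le_total (cJ p) (4 - cI p) with h | h
      · rw [min_eq_left h, max_eq_right (by linarith)]; ring
      · rw [min_eq_right h, max_eq_left (by linarith)]; ring
  right_inv q := by
    ext i; fin_cases i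
    · simp only [cI_mkP, cJ_mkP]
      simp
      have := min_add_max (q 0) 0
      linarith
    · simp only [cI_mkP, cJ_mkP]
      simp
      rcases le_total (q 0) 0 with h | h
      · rw [min_eq_left h, max_eq_right h]
        rw [min_eq_left (by linarith)]; ring
      · rw [min_eq_right h, max_eq_left h]
        rw [min_eq_right (by linarith)]; ring
  continuous_toFun := by
    have := cont_cI; have := cont_cJ; fun_prop
  continuous_invFun := by
    unfold mkP; fun_prop

/-- The rectangle. -/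
def rect : Set E := {p | -4 ≤ p 0 ∧ p 0 ≤ 3 ∧ 0 ≤ p 1 ∧ p 1 ≤ 1}

lemma straighten_mem (p : E) : straighten p ∈ rect ↔ p ∈ C0 := by
  have e0 : straighten p 0 = cI p + cJ p - 4 := rfl
  have e1 : straighten p 1 = min (cJ p) (4 - cI p) := rfl
  unfold rect C0 tA
  rw [Set.mem_ofPred_eq, Set.mem_ofPred_eq, e0, e1]
  push_cast
  constructor
  · rintro ⟨h1, h2, h3, h4⟩
    rw [le_min_iff] at h3
    rw [min_le_iff] at h4
    refine ⟨by linarith, by linarith, by linarith, by linarith, ?_⟩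
    rcases h4 with h4 | h4
    · left; linarith
    · right; linarith
  · rintro ⟨h1, h2, h3, h4, h5⟩
    rw [le_min_iff, min_le_iff]
    refine ⟨by linarith, by linarith, ⟨by linarith, by linarith⟩, ?_⟩
    rcases h5 with h5 | h5
    · left; linarith
    · right; linarith

lemma rect_convex : Convex ℝ rect := by
  intro p hp q hq a b ha hb hab
  obtain ⟨p1, p2, p3, p4⟩ := hp
  obtain ⟨q1, q2, q3, q4⟩ := hq
  refine ⟨?_, ?_, ?_, ?_⟩ <;> simp only [PiLp.add_apply, PiLp.smul_apply, smul_eq_mul] <;> nlinarith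

lemma rect_closed : IsClosed rect := by
  have h0 : Continuous (fun p : E => p 0) := by fun_prop
  have h1 : Continuous (fun p : E => p 1) := by fun_prop
  exact (isClosed_le continuous_const h0).inter ((isClosed_le h0 continuous_const).inter
    ((isClosed_le continuous_const h1).inter (isClosed_le h1 continuous_const)))

lemma rect_int : (interior rect).Nonempty := by
  have h0 : Continuous (fun p : E => p 0) := by fun_prop
  have h1 : Continuous (fun p : E => p 1) := by fun_prop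
  have hopen : IsOpen {p : E | -4 < p 0 ∧ p 0 < 3 ∧ 0 < p 1 ∧ p 1 < 1} :=
    (isOpen_lt continuous_const h0).inter ((isOpen_lt h0 continuous_const).inter
    ((isOpen_lt continuous_const h1).inter (isOpen_lt h1 continuous_const)))
  refine ⟨!₂[0, 1 / 2], ?_⟩
  apply interior_maximal _ hopen
  · constructor
    · norm_num
    · norm_num
  · rintro p ⟨a, b, c, d⟩
    exact ⟨a.le, b.le, c.le, d.le⟩

lemma rect_bdd : Bornology.IsBounded rect := by
  rw [isBounded_iff_forall_norm_le]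
  refine ⟨5, ?_⟩
  rintro p ⟨p1, p2, p3, p4⟩
  rw [EuclideanSpace.norm_eq]
  rw [Real.sqrt_le_left (by norm_num)]
  simp only [Fin.sum_univ_two, Real.norm_eq_abs, sq_abs]
  nlinarith

lemma C0_disc : Nonempty (C0 ≃ₜ Metric.closedBall (0 : E) 1) := by
  obtain ⟨h, -, hcl, -⟩ := exists_homeomorph_image_interior_closure_frontier_eq_unitBall
    rect_convex rect_int rect_bdd
  rw [rect_closed.closure_eq] at hcl
  have e : (straighten.trans h) '' C0 = Metric.closedBall (0 : E) 1 := by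
    rw [← hcl]
    ext q
    constructor
    · rintro ⟨p, hp, rfl⟩
      exact ⟨straighten p, (straighten_mem p).mpr hp, rfl⟩
    · rintro ⟨r, hr, rfl⟩
      refine ⟨straighten.symm r, ?_, ?_⟩
      · rw [← straighten_mem]; simpa using hr
      · simp
  exact ⟨((straighten.trans h).image C0).trans (Homeomorph.setCongr e)⟩

/-! ### The hole -/

/-- The distinguished tile. -/
def T0 : Set E := tA 0 3

lemma T0_mem : T0 ∈ tiling := Or.inl ⟨3, 0, 0, by norm_num, by norm_num, rfl⟩

lemma seg_coord {p q r : E} (h : r ∈ segment ℝ p q) : ∃ a b : ℝ, 0 ≤ a ∧ 0 ≤ b ∧ a + b = 1 ∧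
    cI r = a * cI p + b * cI q ∧ cJ r = a * cJ p + b * cJ q := by
  obtain ⟨a, b, ha, hb, hab, rfl⟩ := h
  refine ⟨a, b, ha, hb, hab, ?_, ?_⟩
  · simp only [cI, PiLp.add_apply, PiLp.smul_apply, smul_eq_mul]; ring
  · simp only [cJ, PiLp.add_apply, PiLp.smul_apply, smul_eq_mul]; ring

/-- The neighbourhood of the distinguished tile. -/
def N0 : Set E := ⋃₀ {T' ∈ tiling | (T' ∩ T0).Nonempty}

lemma sub_b : tA 1 2 ⊆ N0 := by
  refine Set.subset_sUnion_of_mem ⟨Or.inl ⟨4, 0, 0, by norm_num, by norm_num, rfl⟩, mkP 2 3, ?_, ?_⟩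
  · unfold tA; rw [Set.mem_ofPred_eq, cI_mkP, cJ_mkP]; norm_num
  · unfold T0 tA; rw [Set.mem_ofPred_eq, cI_mkP, cJ_mkP]; norm_num

lemma sub_1 : tB 0 0 ⊆ N0 := by
  refine Set.subset_sUnion_of_mem ⟨Or.inr (Or.inl ⟨0, 0, rfl⟩), mkP 0 3, ?_, ?_⟩
  · unfold tB; rw [Set.mem_ofPred_eq, cI_mkP, cJ_mkP]; norm_num
  · unfold T0 tA; rw [Set.mem_ofPred_eq, cI_mkP, cJ_mkP]; norm_num

lemma sub_2 : tC 0 0 ⊆ N0 := by
  refine Set.subset_sUnion_of_mem ⟨Or.inr (Or.inr ⟨0, 0, rfl⟩), mkP 3 7, ?_, ?_⟩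
  · unfold tC; rw [Set.mem_ofPred_eq, cI_mkP, cJ_mkP]; norm_num
  · unfold T0 tA; rw [Set.mem_ofPred_eq, cI_mkP, cJ_mkP]; norm_num

lemma hole (p : E) (hp : p ∈ N0) (h1 : cI p = 17 / 4) (h2 : cJ p = 3 / 2) : False := by
  obtain ⟨S, ⟨hS, q, hqS, hqT⟩, hpS⟩ := hp
  have hc : ocell p 4 1 5 := by
    unfold ocell; rw [h1, h2]; norm_num
  have ha : tA 2 1 ∈ tiling := Or.inl ⟨5, 0, 0, by norm_num, by norm_num, rfl⟩
  have hpa : p ∈ tA 2 1 := by
    unfold tA; rw [Set.mem_ofPred_eq, h1, h2]; norm_num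
  have := tiling_uniq hS ha hc hpS hpa
  subst this
  obtain ⟨a1, a2, a3, a4, a5⟩ := hqS
  obtain ⟨b1, b2, b3, b4, b5⟩ := hqT
  push_cast at *
  rcases a5 with a5 | a5 <;> linarith

lemma join_seg {S : Set E} {R : Set E} {p q : E} (hS : S ⊆ N0)
    (h : ∀ r ∈ segment ℝ p q, r ∈ S ∧ r ∈ R) : JoinedIn (N0 ∩ R) p q :=
  JoinedIn.of_segment_subset fun r hr => ⟨hS (h r hr).1, (h r hr).2⟩

theorem N0_not : ¬ SimplyConnectedSpace N0 := by
  apply not_simplyConnected N0 cI cJ cont_cI cont_cJ (17 / 4) (3 / 2)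
    (fun p hp h1 h2 => hole p hp h1 h2) (mkP 5 5) (mkP 6 1)
  · rw [cJ_mkP]; norm_num
  · rw [cJ_mkP]; norm_num
  · -- right path
    refine JoinedIn.trans (y := mkP 6 4) (join_seg sub_2 ?_) (join_seg sub_2 ?_)
    · intro r hr
      obtain ⟨a, b, ha, hb, hab, e1, e2⟩ := seg_coord hr
      simp only [cI_mkP, cJ_mkP] at e1 e2
      unfold tC
      simp only [Set.mem_ofPred_eq]
      push_cast
      refine ⟨⟨by linarith, by linarith, by linarith, by linarith, ?_⟩, ?_⟩
      · right; linarith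
      · intro h; linarith
    · intro r hr
      obtain ⟨a, b, ha, hb, hab, e1, e2⟩ := seg_coord hr
      simp only [cI_mkP, cJ_mkP] at e1 e2
      unfold tC
      simp only [Set.mem_ofPred_eq]
      push_cast
      refine ⟨⟨by linarith, by linarith, by linarith, by linarith, ?_⟩, ?_⟩
      · left; linarith
      · intro h; linarith
  · -- left path
    refine JoinedIn.trans (y := mkP 5 2) (join_seg sub_b ?_)
      (JoinedIn.trans (y := mkP 1 2) (join_seg sub_b ?_)
      (JoinedIn.trans (y := mkP 2 1) (join_seg sub_1 ?_) (join_seg sub_1 ?_)))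
    · intro r hr
      obtain ⟨a, b, ha, hb, hab, e1, e2⟩ := seg_coord hr
      simp only [cI_mkP, cJ_mkP] at e1 e2
      unfold tA
      simp only [Set.mem_ofPred_eq]
      push_cast
      refine ⟨⟨by linarith, by linarith, by linarith, by linarith, ?_⟩, ?_⟩
      · right; linarith
      · intro h; linarith
    · intro r hr
      obtain ⟨a, b, ha, hb, hab, e1, e2⟩ := seg_coord hr
      simp only [cI_mkP, cJ_mkP] at e1 e2
      unfold tA
      simp only [Set.mem_ofPred_eq]
      push_cast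
      refine ⟨⟨by linarith, by linarith, by linarith, by linarith, ?_⟩, ?_⟩
      · left; linarith
      · intro h; linarith
    · intro r hr
      obtain ⟨a, b, ha, hb, hab, e1, e2⟩ := seg_coord hr
      simp only [cI_mkP, cJ_mkP] at e1 e2
      unfold tB
      simp only [Set.mem_ofPred_eq]
      push_cast
      refine ⟨⟨by linarith, by linarith, by linarith, by linarith, ?_⟩, ?_⟩
      · right; linarith
      · intro h; linarith
    · intro r hr
      obtain ⟨a, b, ha, hb, hab, e1, e2⟩ := seg_coord hr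
      simp only [cI_mkP, cJ_mkP] at e1 e2
      unfold tB
      simp only [Set.mem_ofPred_eq]
      push_cast
      refine ⟨⟨by linarith, by linarith, by linarith, by linarith, ?_⟩, ?_⟩
      · left; linarith
      · intro h; linarith

theorem main : ¬ (∀ (C : Set (EuclideanSpace ℝ (Fin 2))) (𝒯 : Set (Set (EuclideanSpace ℝ (Fin 2)))),
      Nonempty (C ≃ₜ Metric.closedBall (0 : EuclideanSpace ℝ (Fin 2)) 1) →
      (∀ T ∈ 𝒯, ∃ f : EuclideanSpace ℝ (Fin 2) ≃ᵢ EuclideanSpace ℝ (Fin 2), T = f '' C) →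
      ⋃₀ 𝒯 = Set.univ →
      𝒯.Pairwise (fun A B => Disjoint (interior A) (interior B)) →
      ∀ T ∈ 𝒯, SimplyConnectedSpace (⋃₀ {T' ∈ 𝒯 | (T' ∩ T).Nonempty})) :=
  fun H => N0_not (H C0 tiling C0_disc tiling_congr tiling_cover tiling_disj T0 T0_mem)

end Pool.Agent.Work.MP_49f151_co
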